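import Mathlib

set_option maxHeartbeats 4000000

open Finset

namespace Pool.Agent.Results.MP_afadd1_co.LargeDimension

/-- `A` is an `n`-dimensional Hadamard matrix of order `v`. The sum runs over all index tuples `i`
(the value `i l` is overwritten), so each choice of the indices other than `i l` is counted `v`
times and the value for `x = y` is `v * v ^ (n - 1) = v ^ n`. -/
def IsHadamard (n v : ℕ) (A : (Fin n → Fin v) → ℤ) : Prop :=
  (∀ i, A i = 1 ∨ A i = -1) ∧
    ∀ l : Fin n, ∀ x y : Fin v,
      (∑ i : Fin n → Fin v, A (Function.update i l x) * A (Function.update i l y)) =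
        if x = y then (v : ℤ) ^ n else 0

def bt (p x : ℕ) : Bool := xor (decide (x % 2 = 1)) (if p = 0 then false else Nat.testBit (x / 2) (p - 1))

def pos (l j : ℕ) : ℕ := if j < l then j else j - 1

def sg (x : ℕ) : ℕ := if x % 2 = 0 then x + 1 else x - 1

lemma sg_sg (x : ℕ) : sg (sg x) = x := by
  unfold sg; split_ifs <;> omega

lemma sg_lt {t x : ℕ} (h : x < 2 * t) : sg x < 2 * t := by
  unfold sg; split_ifs <;> omega

lemma bt_sg (p x : ℕ) : bt p (sg x) = ! bt p x := by
  unfold bt
  have h1 : sg x / 2 = x / 2 := by unfold sg; split_ifs <;> omega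
  rw [h1]
  have h2 : decide (sg x % 2 = 1) = ! decide (x % 2 = 1) := by
    by_cases h : x % 2 = 1
    · have : ¬ (sg x % 2 = 1) := by unfold sg; split_ifs <;> omega
      simp [h, this]
    · have : sg x % 2 = 1 := by unfold sg; split_ifs <;> omega
      simp [h, this]
  rw [h2]
  cases decide (x % 2 = 1) <;> simp

lemma separate {n t x y : ℕ} (hn : 2 ≤ n) (ht : t ≤ 2 ^ (n - 2)) (hx : x < 2 * t) (hy : y < 2 * t) (hxy : x ≠ y) :
    ∃ p, p ≤ n - 2 ∧ bt p x ≠ bt p y := by
  by_cases h : x % 2 = y % 2
  · have hq : x / 2 ≠ y / 2 := by omega
    have : ∃ i, Nat.testBit (x/2) i ≠ Nat.testBit (y/2) i := by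
      by_contra hcon
      push Not at hcon
      exact hq (Nat.eq_of_testBit_eq hcon)
    obtain ⟨i, hi⟩ := this
    have hi2 : i < n - 2 := by
      by_contra hge
      push Not at hge
      have hp : 2 ^ (n-2) ≤ 2 ^ i := Nat.pow_le_pow_right (by norm_num) hge
      apply hi
      rw [Nat.testBit_lt_two_pow (by omega), Nat.testBit_lt_two_pow (by omega)]
    refine ⟨i + 1, by omega, ?_⟩
    unfold bt
    rw [h]
    simpa using hi
  · refine ⟨0, by omega, ?_⟩
    unfold bt
    simp
    omega

variable {n v : ℕ}

def B (l j : Fin n) (x : Fin v) : Bool := bt (pos l j) x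

def S (p q : Fin n) (i : Fin n → Fin v) : ℤ := if (B p q (i p) && B q p (i q)) then -1 else 1

def AA (i : Fin n → Fin v) : ℤ := ∏ e : Fin n × Fin n, if e.1 < e.2 then S e.1 e.2 i else 1

lemma S_pm (p q : Fin n) (i : Fin n → Fin v) : S p q i = 1 ∨ S p q i = -1 := by
  unfold S; split_ifs <;> simp

lemma S_sq (p q : Fin n) (i : Fin n → Fin v) : S p q i * S p q i = 1 := by
  rcases S_pm p q i with h | h <;> rw [h] <;> norm_num

lemma S_symm (p q : Fin n) (i : Fin n → Fin v) : S p q i = S q p i := by
  unfold S; rw [Bool.and_comm]

lemma AA_pm (i : Fin n → Fin v) : AA i = 1 ∨ AA i = -1 := by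
  unfold AA
  apply Finset.prod_induction _ (fun z : ℤ => z = 1 ∨ z = -1)
  · rintro a b (rfl | rfl) (rfl | rfl) <;> simp
  · left; rfl
  · intro e _
    split_ifs
    · exact S_pm _ _ _
    · left; rfl

lemma S_congr {p q : Fin n} {i i' : Fin n → Fin v} (h1 : i p = i' p) (h2 : i q = i' q) : S p q i = S p q i' := by
  unfold S; rw [h1, h2]

/-- the flip -/
def sgF {t : ℕ} (x : Fin (2 * t)) : Fin (2 * t) := ⟨sg x, sg_lt x.2⟩

lemma quad_main {t : ℕ} {l j : Fin n} (hlj : j ≠ l) {x y : Fin (2 * t)} (hB : B l j x ≠ B l j y)
    (i : Fin n → Fin (2 * t)) :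
    S l j (Function.update i l x) * S l j (Function.update i l y) *
      S l j (Function.update (Function.update i j (sgF (i j))) l x) *
      S l j (Function.update (Function.update i j (sgF (i j))) l y) = -1 := by
  have hs : B j l (sgF (i j)) = ! B j l (i j) := bt_sg _ _
  unfold S
  simp only [Function.update_self, Function.update_of_ne hlj]
  rw [hs]
  revert hB
  cases B l j x <;> cases B l j y <;> cases B j l (i j) <;> simp

lemma quad_other {t : ℕ} {l j : Fin n} {x y : Fin (2 * t)} {p q : Fin n}
    (i : Fin n → Fin (2 * t)) (h : (p ≠ l ∧ q ≠ l) ∨ (p ≠ j ∧ q ≠ j)) :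
    S p q (Function.update i l x) * S p q (Function.update i l y) *
      S p q (Function.update (Function.update i j (sgF (i j))) l x) *
      S p q (Function.update (Function.update i j (sgF (i j))) l y) = 1 := by
  rcases h with ⟨h1, h2⟩ | ⟨h1, h2⟩
  · rw [S_congr (i := Function.update i l x) (i' := Function.update i l y)
      (by rw [Function.update_of_ne h1, Function.update_of_ne h1])
      (by rw [Function.update_of_ne h2, Function.update_of_ne h2]),
      S_congr (i := Function.update (Function.update i j (sgF (i j))) l x)
        (i' := Function.update (Function.update i j (sgF (i j))) l y)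
      (by rw [Function.update_of_ne h1, Function.update_of_ne h1])
      (by rw [Function.update_of_ne h2, Function.update_of_ne h2]), S_sq, one_mul, S_sq]
  · have e : ∀ z : Fin (2*t), ∀ k, k ≠ j → Function.update (Function.update i j (sgF (i j))) l z k = Function.update i l z k := by
      intro z k hk
      by_cases hkl : k = l
      · subst hkl; simp
      · rw [Function.update_of_ne hkl, Function.update_of_ne hk, Function.update_of_ne hkl]
    rw [S_congr (i := Function.update (Function.update i j (sgF (i j))) l x)
        (i' := Function.update i l x) (e x p h1) (e x q h2),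
      S_congr (i := Function.update (Function.update i j (sgF (i j))) l y)
        (i' := Function.update i l y) (e y p h1) (e y q h2)]
    have h3 := S_sq p q (Function.update i l x)
    have h4 := S_sq p q (Function.update i l y)
    linear_combination (S p q (Function.update i l y) * S p q (Function.update i l y)) * h3 + h4

lemma flip_eq {t : ℕ} {l j : Fin n} (hlj : j ≠ l) {x y : Fin (2 * t)} (hB : B l j x ≠ B l j y)
    (i : Fin n → Fin (2 * t)) :
    AA (Function.update (Function.update i j (sgF (i j))) l x) *
      AA (Function.update (Function.update i j (sgF (i j))) l y) =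
      - (AA (Function.update i l x) * AA (Function.update i l y)) := by
  have key : AA (Function.update i l x) * AA (Function.update i l y) *
      AA (Function.update (Function.update i j (sgF (i j))) l x) *
      AA (Function.update (Function.update i j (sgF (i j))) l y) = -1 := by
    unfold AA
    rw [← Finset.prod_mul_distrib, ← Finset.prod_mul_distrib, ← Finset.prod_mul_distrib]
    rcases lt_or_gt_of_ne hlj with hlt | hlt
    · rw [Finset.prod_eq_single (j, l)]
      · simp only [hlt, if_true]
        rw [S_symm j l, S_symm j l, S_symm j l, S_symm j l]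
        exact quad_main hlj hB i
      · rintro ⟨p, q⟩ _ hne
        by_cases hpq : p < q
        · simp only [hpq, if_true]
          apply quad_other
          by_contra hcon
          push Not at hcon
          apply hne
          obtain ⟨c1, c2⟩ := hcon
          by_cases hp : p = l
          · have hq : q ≠ l := fun e => by rw [hp, e] at hpq; exact lt_irrefl _ hpq
            have hpj : p ≠ j := fun e => hlj (e ▸ hp)
            have := c2 hpj
            rw [hp, this] at hpq
            exact absurd hpq (not_lt.2 hlt.le)
          · have hq := c1 hp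
            by_cases hp2 : p = j
            · rw [hp2, hq]
            · have := c2 hp2
              exact absurd (this.symm.trans hq) hlj
        · simp only [hpq, if_false]; norm_num
      · intro h; exact absurd (mem_univ _) h
    · rw [Finset.prod_eq_single (l, j)]
      · have hlt' : l < j := hlt
        simp only [hlt', if_true]
        exact quad_main hlj hB i
      · rintro ⟨p, q⟩ _ hne
        by_cases hpq : p < q
        · simp only [hpq, if_true]
          apply quad_other
          by_contra hcon
          push Not at hcon
          apply hne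
          obtain ⟨c1, c2⟩ := hcon
          by_cases hp : p = l
          · have hpj : p ≠ j := fun e => hlj (e ▸ hp)
            have := c2 hpj
            rw [hp, this]
          · have hq := c1 hp
            by_cases hp2 : p = j
            · rw [hp2, hq] at hpq
              exact absurd hpq (not_lt.2 (le_of_lt hlt))
            · have := c2 hp2
              exact absurd (this.symm.trans hq) hlj
        · simp only [hpq, if_false]; norm_num
      · intro h; exact absurd (mem_univ _) h
  rcases AA_pm (Function.update i l x) with h1 | h1 <;> rcases AA_pm (Function.update i l y) with h2 | h2 <;>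
    rw [h1, h2] at key ⊢ <;> linarith

theorem main {n t : ℕ} (hn : 2 ≤ n) (ht : t ≤ 2 ^ (n - 2)) :
    IsHadamard n (2 * t) (AA (n := n) (v := 2 * t)) := by
  refine ⟨AA_pm, ?_⟩
  intro l x y
  by_cases hxy : x = y
  · subst hxy
    rw [if_pos rfl]
    have : ∀ i : Fin n → Fin (2*t), AA (Function.update i l x) * AA (Function.update i l x) = 1 := by
      intro i
      rcases AA_pm (Function.update i l x) with h | h <;> rw [h] <;> norm_num
    simp [this]
  · rw [if_neg hxy]
    obtain ⟨p, hp, hbt⟩ := separate hn ht x.2 y.2 (fun h => hxy (Fin.ext h))
    obtain ⟨j, hj, hpos⟩ : ∃ j : Fin n, j ≠ l ∧ pos l j = p := by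
      by_cases h : p < l
      · refine ⟨⟨p, by omega⟩, ?_, ?_⟩
        · intro e
          have := congrArg Fin.val e
          simp at this
          omega
        · unfold pos; simp [h]
      · refine ⟨⟨p + 1, by omega⟩, ?_, ?_⟩
        · intro e
          have := congrArg Fin.val e
          simp at this
          omega
        · unfold pos
          have : ¬ (p + 1 < (l:ℕ)) := by omega
          simp [this]
    have hB : B l j x ≠ B l j y := by
      unfold B; rw [hpos]; exact hbt
    let τ : (Fin n → Fin (2*t)) → (Fin n → Fin (2*t)) := fun i => Function.update i j (sgF (i j))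
    have hτ : Function.Involutive τ := by
      intro i
      show Function.update (Function.update i j (sgF (i j))) j (sgF (Function.update i j (sgF (i j)) j)) = i
      rw [Function.update_self, Function.update_idem]
      have : sgF (sgF (i j)) = i j := Fin.ext (sg_sg _)
      rw [this, Function.update_eq_self]
    have h1 := Equiv.sum_comp (Function.Involutive.toPerm τ hτ) (fun i => AA (Function.update i l x) * AA (Function.update i l y))
    have h2 : ∑ i : Fin n → Fin (2*t), AA (Function.update (Function.Involutive.toPerm τ hτ i) l x) * AA (Function.update (Function.Involutive.toPerm τ hτ i) l y) =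
        - ∑ i : Fin n → Fin (2*t), AA (Function.update i l x) * AA (Function.update i l y) := by
      rw [← Finset.sum_neg_distrib]
      apply Finset.sum_congr rfl
      intro i _
      exact flip_eq hj hB i
    rw [h2] at h1
    linarith

end Pool.Agent.Results.MP_afadd1_co.LargeDimension

open Pool.Agent.Results.MP_afadd1_co.LargeDimension in
/-- For every `n ≥ 2` and every `t` with `2 t ≤ 2 ^ (n - 1)` there is an `n`-dimensional Hadamard
matrix of order `2 t`. -/
theorem Pool.Agent.Results.MP_afadd1_co.LargeDimension.result (n t : ℕ) (hn : 2 ≤ n)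
    (ht : 2 * t ≤ 2 ^ (n - 1)) : ∃ A : (Fin n → Fin (2 * t)) → ℤ, IsHadamard n (2 * t) A := by
  refine ⟨_, main hn ?_⟩
  have : n - 1 = (n - 2) + 1 := by omega
  rw [this, pow_succ] at ht
  omega
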