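import Mathlib

set_option autoImplicit false

namespace Pool.Agent.Results.MP_afadd1_co.SmallOrders

/-! ## Definitions used in the statement -/

/-- `A` is an `n`-dimensional Hadamard matrix of order `v`: its entries are `±1`, and for every
direction `l` and indices `x`, `y`, the slices `x` and `y` in direction `l` have inner product
`v ^ (n - 1)` if `x = y` and `0` otherwise. (The sum below runs over all `i : Fin n → Fin v`, so that
it counts every choice of the indices `i j`, `j ≠ l`, exactly `v` times.) -/
def IsHadamard (n v : ℕ) (A : (Fin n → Fin v) → ℤ) : Prop :=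
  (∀ i, A i = 1 ∨ A i = -1) ∧
    ∀ l : Fin n, ∀ x y : Fin v,
      (∑ i : Fin n → Fin v, A (Function.update i l x) * A (Function.update i l y)) =
        if x = y then (v : ℤ) ^ n else 0

/-! ## Proof -/

def Fm (v : ℕ) (rows : List ℕ) (i j : Fin v) : ℤ := if Nat.testBit (rows.getD i 0) j then -1 else 1

def Good (v : ℕ) [NeZero v] (F : Fin v → Fin v → ℤ) : Prop :=
  ∀ d : Fin v, d ≠ 0 → (∑ u, ∑ s, F u s * F (u + d) s = 0) ∧ (∑ u, ∑ s, F u s * F u (s + d) = 0)

instance (v : ℕ) [NeZero v] (F : Fin v → Fin v → ℤ) : Decidable (Good v F) := by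
  unfold Good; infer_instance

variable {n v : ℕ} [NeZero v]

/-- the sum of the coordinates whose index has parity `r` -/
def U (r : ℕ) (i : Fin n → Fin v) : Fin v := ∑ j : Fin n, if (j : ℕ) % 2 = r then i j else 0

theorem U_add (r : ℕ) (i w : Fin n → Fin v) : U r (i + w) = U r i + U r w := by
  unfold U
  rw [← Finset.sum_add_distrib]
  refine Finset.sum_congr rfl fun j _ => ?_
  split_ifs <;> simp

theorem U_single (r : ℕ) (j : Fin n) (a : Fin v) :
    U r (Pi.single j a) = if (j : ℕ) % 2 = r then a else 0 := by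
  unfold U
  rw [Finset.sum_eq_single j]
  · simp
  · intro k _ hk
    rw [Pi.single_eq_of_ne hk]
    simp
  · intro h
    exact absurd (Finset.mem_univ _) h

theorem update_eq (i : Fin n → Fin v) (l : Fin n) (x : Fin v) :
    Function.update i l x = i + Pi.single l (x - i l) := by
  funext j
  by_cases hj : j = l
  · subst hj
    simp
  · simp [Function.update_of_ne hj, Pi.single_eq_of_ne hj]

theorem slice_zero (F : Fin v → Fin v → ℤ)
    (hF : ∀ d : Fin v, d ≠ 0 → ∑ u, ∑ s, F u s * F (u + d) s = 0) (r r' : ℕ) (hr : r ≠ r')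
    (l j k : Fin n) (hl : (l : ℕ) % 2 = r) (hj : (j : ℕ) % 2 = r) (hk : (k : ℕ) % 2 = r')
    (hjl : j ≠ l) (x y : Fin v) (hxy : x ≠ y) :
    ∑ i : Fin n → Fin v, F (U r (Function.update i l x)) (U r' (Function.update i l x)) *
      F (U r (Function.update i l y)) (U r' (Function.update i l y)) = 0 := by
  have hkl : k ≠ l := by
    rintro rfl
    omega
  have hU : ∀ (i : Fin n → Fin v) (z : Fin v), U r (Function.update i l z) = U r i + (z - i l) := by
    intro i z
    rw [update_eq, U_add, U_single, if_pos hl]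
  have hU' : ∀ (i : Fin n → Fin v) (z : Fin v), U r' (Function.update i l z) = U r' i := by
    intro i z
    rw [update_eq, U_add, U_single, if_neg (by omega), add_zero]
  simp only [hU, hU']
  set G : (Fin n → Fin v) → ℤ := fun i =>
    F (U r i + (x - i l)) (U r' i) * F (U r i + (y - i l)) (U r' i) with hG
  change ∑ i, G i = 0
  have hshift : ∀ a b : Fin v, ∑ i, G (i + (Pi.single j a + Pi.single k b)) = ∑ i, G i := by
    intro a b
    have := Equiv.sum_comp (Equiv.addRight (Pi.single j a + Pi.single k b : Fin n → Fin v)) G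
    simpa only [Equiv.coe_addRight] using this
  have hGs : ∀ (i : Fin n → Fin v) (a b : Fin v), G (i + (Pi.single j a + Pi.single k b)) =
      F (a + (U r i + (x - i l))) (b + U r' i) *
        F (a + (U r i + (x - i l)) + (y - x)) (b + U r' i) := by
    intro i a b
    have e1 : U r (i + (Pi.single j a + Pi.single k b)) = U r i + a := by
      rw [U_add, U_add, U_single, U_single, if_pos hj, if_neg (by omega), add_zero]
    have e2 : U r' (i + (Pi.single j a + Pi.single k b)) = U r' i + b := by
      rw [U_add, U_add, U_single, U_single, if_neg (by omega), if_pos hk, zero_add]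
    have e3 : (i + (Pi.single j a + Pi.single k b) : Fin n → Fin v) l = i l := by
      simp [Pi.single_eq_of_ne hjl.symm, Pi.single_eq_of_ne hkl.symm]
    simp only [hG, e1, e2, e3]
    have f1 : U r i + a + (x - i l) = a + (U r i + (x - i l)) := by abel
    have f2 : U r i + a + (y - i l) = a + (U r i + (x - i l)) + (y - x) := by abel
    have f3 : U r' i + b = b + U r' i := by abel
    rw [f1, f2, f3]
  have hz : ∀ i : Fin n → Fin v, ∑ a, ∑ b, G (i + (Pi.single j a + Pi.single k b)) = 0 := by
    intro i
    simp only [hGs]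
    rw [← hF (y - x) (sub_ne_zero.2 hxy.symm)]
    have h1 := Equiv.sum_comp (Equiv.addRight (U r i + (x - i l)))
      (fun a => ∑ b, F a b * F (a + (y - x)) b)
    simp only [Equiv.coe_addRight] at h1
    rw [← h1]
    refine Finset.sum_congr rfl fun a _ => ?_
    have h2 := Equiv.sum_comp (Equiv.addRight (U r' i))
      (fun b => F (a + (U r i + (x - i l))) b * F (a + (U r i + (x - i l)) + (y - x)) b)
    simpa only [Equiv.coe_addRight] using h2
  have h1 : ∑ a : Fin v, ∑ b : Fin v, ∑ i, G (i + (Pi.single j a + Pi.single k b)) = 0 := by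
    have : ∑ a : Fin v, ∑ b : Fin v, ∑ i, G (i + (Pi.single j a + Pi.single k b)) =
        ∑ i, ∑ a : Fin v, ∑ b : Fin v, G (i + (Pi.single j a + Pi.single k b)) := by
      rw [Finset.sum_comm (s := (Finset.univ : Finset (Fin n → Fin v)))]
      refine Finset.sum_congr rfl fun a _ => ?_
      rw [Finset.sum_comm]
    rw [this]
    exact Finset.sum_eq_zero fun i _ => hz i
  simp only [hshift, Finset.sum_const, Finset.card_univ, Fintype.card_fin, nsmul_eq_mul] at h1
  have hv : (v : ℤ) ≠ 0 := by exact_mod_cast NeZero.ne v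
  rcases mul_eq_zero.1 h1 with h | h
  · exact absurd h hv
  · rcases mul_eq_zero.1 h with h | h
    · exact absurd h hv
    · exact h

theorem of_good (F : Fin v → Fin v → ℤ) (hF : ∀ i j, F i j = 1 ∨ F i j = -1) (hG : Good v F)
    (hn : 4 ≤ n) : ∃ A : (Fin n → Fin v) → ℤ, IsHadamard n v A := by
  refine ⟨fun i => F (U 0 i) (U 1 i), fun i => hF _ _, fun l x y => ?_⟩
  split_ifs with hxy
  · subst hxy
    have : ∀ a b, F a b * F a b = 1 := by
      intro a b
      rcases hF a b with h | h <;> rw [h] <;> norm_num
    simp [this]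
  · rcases Nat.mod_two_eq_zero_or_one (l : ℕ) with hl | hl
    · obtain ⟨j, hj, hjl⟩ : ∃ j : Fin n, (j : ℕ) % 2 = 0 ∧ j ≠ l := by
        by_cases h : (l : ℕ) = 0
        · exact ⟨⟨2, by omega⟩, by simp, fun h' => by rw [← h'] at h; simp at h⟩
        · exact ⟨⟨0, by omega⟩, by simp, fun h' => by rw [← h'] at h; simp at h⟩
      exact slice_zero F (fun d hd => (hG d hd).1) 0 1 (by norm_num) l j ⟨1, by omega⟩ hl hj rfl
        hjl x y hxy
    · obtain ⟨j, hj, hjl⟩ : ∃ j : Fin n, (j : ℕ) % 2 = 1 ∧ j ≠ l := by
        by_cases h : (l : ℕ) = 1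
        · exact ⟨⟨3, by omega⟩, by simp, fun h' => by rw [← h'] at h; simp at h⟩
        · exact ⟨⟨1, by omega⟩, by simp, fun h' => by rw [← h'] at h; simp at h⟩
      exact slice_zero (fun a b => F b a) (fun d hd => by
        have := (hG d hd).2
        rw [Finset.sum_comm]
        exact this) 1 0 (by norm_num) l j ⟨0, by omega⟩ hl hj rfl hjl x y hxy

theorem Fm_pm (rows : List ℕ) (i j : Fin v) : Fm v rows i j = 1 ∨ Fm v rows i j = -1 := by
  unfold Fm
  split_ifs
  · right; rfl
  · left; rfl

theorem of_rows (rows : List ℕ) (h : Good v (Fm v rows)) (hn : 4 ≤ n) :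
    ∃ A : (Fin n → Fin v) → ℤ, IsHadamard n v A := of_good _ (Fm_pm rows) h hn

/-- **Small orders**: for every `n ≥ 4` and `1 ≤ t ≤ 10` there is an `n`-dimensional Hadamard matrix
of order `2 t`. -/
theorem result (n t : ℕ) (hn : 4 ≤ n) (ht : 1 ≤ t) (ht' : t ≤ 10) :
    ∃ A : (Fin n → Fin (2 * t)) → ℤ, IsHadamard n (2 * t) A := by
  interval_cases t
  · exact of_rows (v := 2) [3, 2] (by decide +kernel) hn
  · exact of_rows (v := 4) [1, 1, 11, 4] (by decide +kernel) hn
  · exact of_rows (v := 6) [46, 11, 59, 41, 16, 35] (by decide +kernel) hn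
  · exact of_rows (v := 8) [100, 77, 112, 4, 209, 74, 139, 132] (by decide +kernel) hn
  · exact of_rows (v := 10) [488, 685, 763, 732, 553, 275, 559, 924, 915, 640]
      (by decide +kernel) hn
  · exact of_rows (v := 12) [2360, 3348, 689, 200, 1186, 966, 3963, 1398, 3266, 366, 976, 1521]
      (by decide +kernel) hn
  · exact of_rows (v := 14) [10708, 10061, 9154, 12432, 13989, 11776, 8505, 11498, 10507, 6848,
      2946, 3184, 9947, 4118] (by decide +kernel) hn
  · exact of_rows (v := 16) [6309, 30572, 47045, 56145, 41216, 37599, 3773, 32394, 12566, 25629,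
      30408, 48696, 51432, 47008, 42176, 29625] (by decide +kernel) hn
  · exact of_rows (v := 18) [195025, 147808, 240087, 253343, 65191, 125843, 242312, 35673, 197287,
      175668, 25991, 137926, 162997, 158266, 37369, 203099, 245815, 116659] (by decide +kernel) hn
  · exact of_rows (v := 20) [276103, 488206, 562566, 537781, 209465, 1005549, 386583, 681085,
      153991, 403752, 219578, 720954, 793251, 722244, 6137, 521411, 338698, 344081, 128611, 793523]
      (by decide +kernel) hn

end Pool.Agent.Results.MP_afadd1_co.SmallOrders
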